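import Pool.Agent.Y166.CS.Stm

set_option autoImplicit false

namespace Pool.Agent.Y86.CS

open Polynomial

lemma half {k : ℕ} (hk : 2 ≤ k) {x : ℂ[X]} (hx : x.natDegree ≠ 0) (c : ℂ)
    (h : ∀ t : ℂ, k ∣ (x - C c).rootMultiplicity t) :
    x.natDegree ≤ 2 * ∑ t ∈ (x - C c).roots.toFinset, (derivative x).roots.count t := by
  have hdeg : (x - C c).natDegree = x.natDegree := natDegree_sub_C
  have hP0 : x - C c ≠ 0 := by
    intro h0
    rw [h0, natDegree_zero] at hdeg
    exact hx hdeg.symm
  have hcard : Multiset.card (x - C c).roots = (x - C c).natDegree :=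
    (IsAlgClosed.splits (x - C c)).natDegree_eq_card_roots.symm
  have hder : derivative (x - C c) = derivative x := by
    rw [derivative_sub, derivative_C, sub_zero]
  rw [← hdeg, ← hcard, ← Multiset.toFinset_sum_count_eq, Finset.mul_sum]
  refine Finset.sum_le_sum fun t ht => ?_
  rw [Multiset.mem_toFinset, mem_roots hP0] at ht
  rw [count_roots, count_roots, ← hder, derivative_rootMultiplicity_of_root ht]
  have h1 : 0 < (x - C c).rootMultiplicity t := (rootMultiplicity_pos hP0).mpr ht
  have h2 := Nat.le_of_dvd h1 (h t)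
  omega

theorem done : Pool.Agent.Y166.CS.S_KPOW := by
  intro k hk x c c' hcc h h'
  by_contra hne
  have hx : x.natDegree ≠ 0 := by
    intro h0
    exact hne ⟨x.coeff 0, eq_C_of_natDegree_eq_zero h0⟩
  have h1 := half hk hx c h
  have h2 := half hk hx c' h'
  have hdis : Disjoint (x - C c).roots.toFinset (x - C c').roots.toFinset := by
    rw [Finset.disjoint_left]
    intro t ht ht'
    rw [Multiset.mem_toFinset] at ht ht'
    have e1 := isRoot_of_mem_roots ht
    have e2 := isRoot_of_mem_roots ht'
    rw [IsRoot.def, eval_sub, eval_C, sub_eq_zero] at e1 e2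
    exact hcc (e1.symm.trans e2)
  have h3 : ∑ t ∈ (x - C c).roots.toFinset ∪ (x - C c').roots.toFinset,
      (derivative x).roots.count t ≤ Multiset.card (derivative x).roots := by
    rw [← Multiset.toFinset_sum_count_eq]
    refine Finset.sum_le_sum_of_ne_zero fun t _ ht => ?_
    rw [Multiset.mem_toFinset]
    exact Multiset.count_ne_zero.mp ht
  rw [Finset.sum_union hdis] at h3
  have h4 := (derivative x).card_roots'
  have h5 := natDegree_derivative_lt hx
  omega

end Pool.Agent.Y86.CS
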