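import Pool.Agent.Y166.CS.Stm2

set_option autoImplicit false

namespace Pool.Agent.Y86.CS.UNC

open Polynomial

/-- the relation -/
def rel (f g : ℂ[X]) : Prop := ∃ a b c : ℂ, a ≠ 0 ∧ c ≠ 0 ∧ g = C c * f.comp (C a * X + C b)

lemma rel_refl (f : ℂ[X]) : rel f f := ⟨1, 0, 1, one_ne_zero, one_ne_zero, by simp⟩

lemma rel_symm {f g : ℂ[X]} (h : rel f g) : rel g f := by
  obtain ⟨a, b, c, ha, hc, rfl⟩ := h
  refine ⟨a⁻¹, -b / a, c⁻¹, inv_ne_zero ha, inv_ne_zero hc, ?_⟩
  have h1 : (C a * X + C b : ℂ[X]).comp (C a⁻¹ * X + C (-b / a)) = X := by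
    simp only [add_comp, mul_comp, C_comp, X_comp]
    rw [mul_add, ← mul_assoc, ← C_mul, ← C_mul, mul_inv_cancel₀ ha, C_1, one_mul, add_assoc,
      ← C_add, mul_div_cancel₀ _ ha, neg_add_cancel, C_0, add_zero]
  rw [mul_comp, C_comp, comp_assoc, h1, comp_X, ← mul_assoc, ← C_mul, inv_mul_cancel₀ hc, C_1,
    one_mul]

lemma rel_trans {f g h : ℂ[X]} (h1 : rel f g) (h2 : rel g h) : rel f h := by
  obtain ⟨a, b, c, ha, hc, rfl⟩ := h1
  obtain ⟨a', b', c', ha', hc', rfl⟩ := h2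
  refine ⟨a * a', a * b' + b, c' * c, mul_ne_zero ha ha', mul_ne_zero hc' hc, ?_⟩
  have h1 : (C a * X + C b : ℂ[X]).comp (C a' * X + C b') = C (a * a') * X + C (a * b' + b) := by
    simp only [add_comp, mul_comp, C_comp, X_comp, C_mul, C_add]
    ring
  rw [mul_comp, C_comp, comp_assoc, h1, ← mul_assoc, ← C_mul]

/-- the setoid -/
def st : Setoid ℂ[X] := ⟨rel, rel_refl, rel_symm, rel_trans⟩

/-- `0, …, s - 2` -/
noncomputable def base (s : ℕ) : Finset ℂ := (Finset.range (s - 1)).image fun i : ℕ => (i : ℂ)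

/-- the roots -/
noncomputable def W (s : ℕ) (z : ℂ) : Finset ℂ := insert z (base s)

/-- the polynomials -/
noncomputable def F (s : ℕ) (z : ℂ) : ℂ[X] := ∏ w ∈ W s z, (X - C w)

lemma card_base (s : ℕ) : (base s).card = s - 1 := by
  rw [base, Finset.card_image_of_injective _ Nat.cast_injective, Finset.card_range]

lemma eval_F (s : ℕ) (z t : ℂ) : (F s z).eval t = 0 ↔ t ∈ W s z := by
  rw [F, eval_prod, Finset.prod_eq_zero_iff]
  simp only [eval_sub, eval_X, eval_C, sub_eq_zero]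
  constructor
  · rintro ⟨a, ha, rfl⟩
    exact ha
  · intro h
    exact ⟨t, h, rfl⟩

lemma F_inj {s : ℕ} {z z' : ℂ} (hz : z ∉ base s) (h : F s z = F s z') : z = z' := by
  have h1 : z ∈ W s z' := by
    rw [← eval_F, ← h, eval_F]
    exact Finset.mem_insert_self _ _
  rcases Finset.mem_insert.mp h1 with h2 | h2
  · exact h2
  · exact absurd h2 hz

lemma fin_class {s : ℕ} (hs : 3 ≤ s) (f : ℂ[X]) (hf : f ≠ 0) :
    {z : ℂ | rel f (F s z)}.Finite := by
  have hfin := (f.roots.toFinset ×ˢ (f.roots.toFinset ×ˢ f.roots.toFinset)).finite_toSet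
  refine (hfin.image fun t => (t.2.2 - t.1) / (t.2.1 - t.1)).subset ?_
  rintro z ⟨a, b, c, ha, hc, h⟩
  have key : ∀ t, t ∈ W s z → a * t + b ∈ f.roots.toFinset := by
    intro t ht
    rw [← eval_F, h, eval_mul, eval_C, eval_comp, eval_add, eval_mul, eval_C, eval_X, eval_C] at ht
    rw [Multiset.mem_toFinset, mem_roots hf]
    exact (mul_eq_zero.mp ht).resolve_left hc
  have h0 : (0 : ℂ) ∈ W s z := by
    refine Finset.mem_insert_of_mem (Finset.mem_image.mpr ⟨0, Finset.mem_range.mpr (by omega), ?_⟩)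
    exact Nat.cast_zero
  have h1 : (1 : ℂ) ∈ W s z := by
    refine Finset.mem_insert_of_mem (Finset.mem_image.mpr ⟨1, Finset.mem_range.mpr (by omega), ?_⟩)
    exact Nat.cast_one
  have h2 : z ∈ W s z := Finset.mem_insert_self _ _
  refine ⟨(a * 0 + b, a * 1 + b, a * z + b), ?_, ?_⟩
  · rw [Finset.mem_coe, Finset.mem_product, Finset.mem_product]
    exact ⟨key 0 h0, key 1 h1, key z h2⟩
  · change (a * z + b - (a * 0 + b)) / (a * 1 + b - (a * 0 + b)) = z
    have e1 : a * z + b - (a * 0 + b) = a * z := by ring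
    have e2 : a * 1 + b - (a * 0 + b) = a := by ring
    rw [e1, e2, mul_div_cancel_left₀ _ ha]

lemma F_ne (s : ℕ) (z : ℂ) : F s z ≠ 0 := by
  rw [F]
  exact Finset.prod_ne_zero_iff.mpr fun w _ => X_sub_C_ne_zero w

theorem done : Pool.Agent.Y166.CS.S_UNC := by
  intro s hs
  let T : Set ℂ[X] := F s '' {z | z ∉ base s}
  have hT : ¬ T.Countable := by
    intro h
    have hinj : Set.InjOn (F s) {z | z ∉ base s} := fun z hz z' _ h => F_inj hz h
    have h1 : {z : ℂ | z ∉ base s}.Countable := Set.countable_of_injective_of_countable_image hinj h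
    have h2 : (Set.univ : Set ℂ).Countable := by
      refine (h1.union (base s).countable_toSet).mono fun z _ => ?_
      by_cases hz : z ∈ base s
      · exact Or.inr hz
      · exact Or.inl hz
    exact not_countable_complex h2
  have hcls : ∀ f ∈ T, {g | g ∈ T ∧ rel f g}.Countable := by
    rintro f ⟨z, hz, rfl⟩
    refine ((fin_class hs (F s z) (F_ne s z)).image (F s)).countable.mono ?_
    rintro g ⟨⟨w, hw, rfl⟩, hg⟩
    exact ⟨w, hg, rfl⟩
  let mk : ℂ[X] → Quotient st := fun f => Quotient.mk st f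
  have hmk : ∀ f g, mk f = mk g ↔ rel f g := fun f g => Quotient.eq (r := st)
  let Q : Set (Quotient st) := mk '' T
  have hrep : ∀ c : Quotient st, ∃ f, c ∈ Q → f ∈ T ∧ mk f = c := by
    intro c
    by_cases hc : c ∈ Q
    · obtain ⟨f, hf, h⟩ := hc
      exact ⟨f, fun _ => ⟨hf, h⟩⟩
    · exact ⟨0, fun h => absurd h hc⟩
  choose rep hrep using hrep
  refine ⟨rep '' Q, ?_, ?_, ?_⟩
  · intro hS
    have hQ : Q.Countable := by
      refine (hS.image mk).mono ?_
      intro c hc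
      exact ⟨rep c, ⟨c, hc, rfl⟩, (hrep c hc).2⟩
    apply hT
    have h1 : T ⊆ ⋃ c ∈ Q, {g | g ∈ T ∧ rel (rep c) g} := by
      intro g hg
      have hc : mk g ∈ Q := ⟨g, hg, rfl⟩
      simp only [Set.mem_iUnion]
      exact ⟨mk g, hc, hg, (hmk _ _).mp (hrep _ hc).2⟩
    exact (hQ.biUnion fun c hc => hcls _ (hrep c hc).1).mono h1
  · rintro f ⟨c, hc, rfl⟩
    obtain ⟨z, hz, hzf⟩ := (hrep c hc).1
    rw [← hzf]
    constructor
    · apply Separable.squarefree
      rw [F]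
      exact (separable_prod_X_sub_C_iff' (f := id)).mpr fun x _ y _ h => h
    · rw [F, natDegree_finsetProd_X_sub_C_eq_card, W, Finset.card_insert_of_notMem hz, card_base]
      omega
  · rintro f ⟨c, hc, rfl⟩ g ⟨c', hc', rfl⟩ h
    have h1 : mk (rep c) = mk (rep c') := (hmk _ _).mpr h
    rw [(hrep c hc).2, (hrep c' hc').2] at h1
    rw [h1]

end Pool.Agent.Y86.CS.UNC
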